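import Pool.Agent.H.MP_96d1d5_an.A

set_option autoImplicit false

namespace Pool.Agent.H.MP_fb0356_an

open scoped ContDiff Topology ComplexConjugate
open Filter Real

noncomputable def ez (t : ℝ) : ℂ := Complex.exp (t * Complex.I)

lemma ez_add (s t : ℝ) : ez (s + t) = ez s * ez t := by
  simp [ez, add_mul, Complex.exp_add]

lemma ez_eq (t : ℝ) : ez t = ⟨cos t, sin t⟩ :=
  Complex.ext (Complex.exp_ofReal_mul_I_re t) (Complex.exp_ofReal_mul_I_im t)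

lemma ez_norm (t : ℝ) : ‖ez t‖ = 1 := Complex.norm_exp_ofReal_mul_I t

noncomputable def Lf (ϖ : ℝ) (μ ν : ℂ) (x : ℝ) : ℝ :=
  x + (Complex.log (μ + ν * ez (-(2 * (ϖ * x))))).im / ϖ

lemma re_pos {μ ν : ℂ} (h : ‖ν‖ < μ.re) (t : ℝ) : 0 < (μ + ν * ez t).re := by
  have := Complex.abs_re_le_norm (ν * ez t)
  rw [norm_mul, ez_norm, mul_one, abs_le] at this
  rw [Complex.add_re]; linarith

lemma mul_ez (μ ν : ℂ) (t : ℝ) :
    ez t * (μ + ν * ez (-(2 * t))) = μ * ez t + ν * conj (ez t) := by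
  rw [mul_add, mul_left_comm, ← ez_add, mul_comm, show t + -(2 * t) = -t by ring]
  simp [ez_eq, Complex.ext_iff]

lemma K1 {ϖ : ℝ} (hϖ : 0 < ϖ) {μ ν : ℂ} (h : ‖ν‖ < μ.re) (x : ℝ) :
    |ϖ * Lf ϖ μ ν x - ϖ * x| < π / 2 ∧ ∃ l : ℝ, 0 < l ∧
      ez (ϖ * Lf ϖ μ ν x) = l * (μ * ez (ϖ * x) + ν * conj (ez (ϖ * x))) := by
  have h1 := re_pos h (-(2 * (ϖ * x)))
  have h2 : ϖ * Lf ϖ μ ν x = ϖ * x + Complex.arg (μ + ν * ez (-(2 * (ϖ * x)))) := by
    rw [Lf, Complex.log_im]; field_simp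
  rw [h2, ← mul_ez, ez_add]
  generalize μ + ν * ez (-(2 * (ϖ * x))) = w at h1
  have h3 : w ≠ 0 := by rintro rfl; simp at h1
  refine ⟨by rw [add_sub_cancel_left]; exact Complex.abs_arg_lt_pi_div_two_iff.2 (Or.inl h1),
    ‖w‖⁻¹, by positivity, ?_⟩
  have h4 : (‖w‖ : ℂ) ≠ 0 := by simpa using h3
  conv_rhs => enter [2, 2]; rw [← Complex.norm_mul_exp_arg_mul_I w]
  rw [ez]; push_cast; rw [ez]; field_simp

lemma K2 {s t l : ℝ} (hl : 0 < l) (h : ez s = l * ez t) (h1 : |s - t| < 2 * π) : s = t := by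
  have h2 : l = 1 := by simpa [ez_norm, abs_of_pos hl] using (congrArg norm h).symm
  rw [h2, Complex.ofReal_one, one_mul, ez, ez, Complex.exp_eq_exp_iff_exists_int] at h
  obtain ⟨n, hn⟩ := h
  have h3 : s - t = n * (2 * π) := by simpa [sub_eq_iff_eq_add'] using congrArg Complex.im hn
  rw [h3, abs_mul, abs_of_pos two_pi_pos, mul_lt_iff_lt_one_left two_pi_pos] at h1
  have : n = 0 := Int.abs_lt_one_iff.1 (by exact_mod_cast h1)
  rw [this] at h3; simpa [sub_eq_zero] using h3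

lemma K4 {ϖ : ℝ} (hϖ : 0 < ϖ) {μ ν : ℂ} (h : ‖ν‖ < μ.re) (x : ℝ) :
    HasDerivAt (Lf ϖ μ ν) ((Complex.normSq μ - Complex.normSq ν) /
      Complex.normSq (μ * ez (ϖ * x) + ν * conj (ez (ϖ * x)))) x := by
  have h1 := re_pos h (-(2 * (ϖ * x)))
  have h2 : HasDerivAt (fun x : ℝ => μ + ν * ez (-(2 * (ϖ * x))))
      (ν * (ez (-(2 * (ϖ * x))) * (((-(2 * (ϖ * 1)) : ℝ) : ℂ) * Complex.I))) x :=
    ((((((hasDerivAt_id x).const_mul ϖ).const_mul 2).neg.ofReal_comp).mul_const _).cexp.const_mul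
      ν).const_add μ
  have h3 := (hasDerivAt_id x).add ((Complex.imCLM.hasFDerivAt.comp_hasDerivAt x
    (h2.clog_real (Or.inl h1))).div_const ϖ)
  refine HasDerivAt.congr_deriv h3 (Eq.symm ?_)
  have h4 : Complex.normSq (ez (-(2 * (ϖ * x)))) = 1 := by
    rw [Complex.normSq_eq_norm_sq, ez_norm, one_pow]
  rw [← mul_ez, map_mul, Complex.normSq_eq_norm_sq (ez _), ez_norm]
  generalize ez (-(2 * (ϖ * x))) = z at h1 h4
  have h5 : Complex.normSq ν = Complex.normSq (ν * z) := by rw [map_mul, h4, mul_one]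
  rw [h5, ← mul_assoc]
  generalize ν * z = y at h1
  have h6 : 0 < Complex.normSq (μ + y) := Complex.normSq_pos.2 (by rintro h; simp [h] at h1)
  simp only [Complex.imCLM_apply, Complex.div_im]
  field_simp
  simp [Complex.normSq_apply]; ring

lemma Lf_per {ϖ : ℝ} (μ ν : ℂ) {s : ℝ} {k : ℤ} (hs : ϖ * s = k * π) (x : ℝ) :
    Lf ϖ μ ν (x + s) = Lf ϖ μ ν x + s := by
  have : ez (-(2 * (ϖ * (x + s)))) = ez (-(2 * (ϖ * x))) := by
    rw [mul_add, hs, show -(2 * (ϖ * x + k * π)) = -(2 * (ϖ * x)) - k * (2 * π) by ring, ez_eq,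
      ez_eq, cos_sub_int_mul_two_pi, sin_sub_int_mul_two_pi]
  rw [Lf, Lf, this]; ring

lemma Lf_smooth {P : Type} [NormedAddCommGroup P] [NormedSpace ℝ P] (ϖ : ℝ) {μ ν : P → ℂ}
    {x : P → ℝ} (hμ : ContDiff ℝ ∞ μ) (hν : ContDiff ℝ ∞ ν) (hx : ContDiff ℝ ∞ x)
    (h : ∀ p, ‖ν p‖ < (μ p).re) : ContDiff ℝ ∞ fun p => Lf ϖ (μ p) (ν p) (x p) := by
  have h1 : ContDiff ℝ ∞ fun p => μ p + ν p * ez (-(2 * (ϖ * x p))) :=
    hμ.add (hν.mul (Complex.contDiff_exp.comp ((Complex.ofRealCLM.contDiff.comp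
      (contDiff_const.mul (contDiff_const.mul hx)).neg).mul contDiff_const)))
  have h2 : ContDiff ℝ ∞ fun p => Complex.log (μ p + ν p * ez (-(2 * (ϖ * x p)))) :=
    contDiff_iff_contDiffAt.2 fun p =>
      ContDiffAt.comp (g := Complex.log) p
        ((Complex.contDiffAt_log (Or.inl (re_pos (h p) _))).restrict_scalars ℝ) h1.contDiffAt
  exact hx.add ((Complex.imCLM.contDiff.comp h2).div_const ϖ)

noncomputable def Lp (ϖ : ℝ) (p : ℝ × ℝ) : ℝ → ℝ :=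
  Lf ϖ (1 + p.1 * Complex.I) ((sin p.2 / 2 : ℝ) * Complex.I)

lemma Lp_h (p : ℝ × ℝ) : ‖((sin p.2 / 2 : ℝ) : ℂ) * Complex.I‖ < (1 + p.1 * Complex.I : ℂ).re := by
  have := abs_sin_le_one p.2
  rw [norm_mul, Complex.norm_real, Real.norm_eq_abs, abs_div]
  simp; linarith

lemma Lp_smooth {P : Type} [NormedAddCommGroup P] [NormedSpace ℝ P] (ϖ : ℝ) {p : P → ℝ × ℝ}
    {x : P → ℝ} (hp : ContDiff ℝ ∞ p) (hx : ContDiff ℝ ∞ x) :
    ContDiff ℝ ∞ fun q => Lp ϖ (p q) (x q) :=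
  Lf_smooth ϖ (contDiff_const.add ((Complex.ofRealCLM.contDiff.comp hp.fst).mul contDiff_const))
    ((Complex.ofRealCLM.contDiff.comp (hp.snd.sin.div_const 2)).mul contDiff_const) hx
    fun q => Lp_h _

lemma Lp_zero (ϖ x : ℝ) : Lp ϖ 0 x = x := by simp [Lp, Lf]

lemma Lp_deriv {ϖ : ℝ} (hϖ : 0 < ϖ) (p : ℝ × ℝ) (x : ℝ) : 0 < deriv (Lp ϖ p) x := by
  rw [Lp, (K4 hϖ (Lp_h p) x).deriv, ← mul_ez]
  refine div_pos ?_ (Complex.normSq_pos.2 (mul_ne_zero (Complex.exp_ne_zero _) fun h => by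
    have := re_pos (Lp_h p) (-(2 * (ϖ * x)))
    rw [h] at this; exact lt_irrefl _ this))
  have := sin_sq_le_one p.2
  simp only [Complex.normSq_apply, Complex.add_re, Complex.mul_re, Complex.add_im, Complex.mul_im,
    Complex.ofReal_re, Complex.ofReal_im, Complex.I_re, Complex.I_im, Complex.one_re,
    Complex.one_im]
  nlinarith [sq_nonneg p.1]

section
variable {ϖ ε : ℝ} (hϖ : 0 < ϖ) (h0 : 0 < ε) (h1 : ε ≤ 1)

noncomputable def La (ϖ ε : ℝ) : ℝ → ℝ := Lf ϖ ((1 + ε) / 2 : ℝ) (-((1 - ε) / 2) : ℝ)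
noncomputable def Lb (ϖ ε : ℝ) : ℝ → ℝ := Lf ϖ ((1 + ε) / 2 : ℝ) ((1 - ε) / 2 : ℝ)

include h0 h1 in
lemma ha : ‖((-((1 - ε) / 2) : ℝ) : ℂ)‖ < (((1 + ε) / 2 : ℝ) : ℂ).re := by
  rw [Complex.norm_real, Complex.ofReal_re, Real.norm_eq_abs, abs_lt]; constructor <;> linarith

include h0 h1 in
lemma hb : ‖(((1 - ε) / 2 : ℝ) : ℂ)‖ < (((1 + ε) / 2 : ℝ) : ℂ).re := by
  rw [Complex.norm_real, Complex.ofReal_re, Real.norm_eq_abs, abs_lt]; constructor <;> linarith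

lemma na (ε : ℝ) (z : ℂ) : ((1 + ε) / 2 : ℝ) * z + (-((1 - ε) / 2) : ℝ) * conj z =
    ⟨ε * z.re, z.im⟩ := by
  simp only [Complex.ext_iff, Complex.add_re, Complex.re_ofReal_mul, Complex.conj_re,
    Complex.add_im, Complex.im_ofReal_mul, Complex.conj_im]
  constructor <;> ring

lemma nb (ε : ℝ) (z : ℂ) : ((1 + ε) / 2 : ℝ) * z + ((1 - ε) / 2 : ℝ) * conj z =
    ⟨z.re, ε * z.im⟩ := by
  simp only [Complex.ext_iff, Complex.add_re, Complex.re_ofReal_mul, Complex.conj_re,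
    Complex.add_im, Complex.im_ofReal_mul, Complex.conj_im]
  constructor <;> ring

noncomputable def Am : Equiv.Perm ℝ where
  toFun := La ϖ ε
  invFun := Lb ϖ ε
  left_inv x := by
    obtain ⟨e1, l, hl, e2⟩ := K1 hϖ (ha h0 h1) x
    obtain ⟨e3, l', hl', e4⟩ := K1 hϖ (hb h0 h1) (La ϖ ε x)
    refine mul_left_cancel₀ hϖ.ne' (K2 (l := l' * l * ε) (by positivity) ?_ ?_)
    · rw [Lb, e4, La, e2, na, nb]; simp [Complex.ext_iff]; constructor <;> ring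
    · rw [abs_lt] at *; rw [Lb]; rw [← La] at e1; constructor <;> linarith [pi_pos]
  right_inv x := by
    obtain ⟨e1, l, hl, e2⟩ := K1 hϖ (hb h0 h1) x
    obtain ⟨e3, l', hl', e4⟩ := K1 hϖ (ha h0 h1) (Lb ϖ ε x)
    refine mul_left_cancel₀ hϖ.ne' (K2 (l := l' * l * ε) (by positivity) ?_ ?_)
    · rw [La, e4, Lb, e2, na, nb]; simp [Complex.ext_iff]; constructor <;> ring
    · rw [abs_lt] at *; rw [La]; rw [← Lb] at e1; constructor <;> linarith [pi_pos]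

include hϖ h0 h1 in
lemma K3 {s d : ℝ} (hs : |ϖ * s| ≤ ε * d) (hd : d ≤ 1 / 4) :
    ∃ p : ℝ × ℝ, ‖p‖ ≤ 8 * d ∧ ∀ x, La ϖ ε (Lb ϖ ε x + s) = Lp ϖ p x := by
  set φ := ϖ * s with hφ
  have d0 : 0 ≤ d := by
    have := (abs_nonneg _).trans hs
    exact nonneg_of_mul_nonneg_right this h0 |> fun h => by nlinarith
  have f1 : |φ| ≤ 1 / 4 := by nlinarith
  have f2 : 1 / 2 ≤ cos φ := by
    have := one_sub_sq_div_two_le_cos (x := φ)
    nlinarith [abs_le.1 f1, sq_abs φ]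
  have f3 : |sin φ / cos φ / ε| ≤ 2 * d := by
    rw [abs_div, abs_div, abs_of_pos h0, abs_of_pos (show 0 < cos φ by linarith), div_div,
      div_le_iff₀ (by positivity)]
    nlinarith [abs_sin_le_abs (x := φ), mul_nonneg h0.le d0]
  set T := sin φ / cos φ / ε with hT
  have f4 : |T * (1 - ε ^ 2)| ≤ 2 * d := by
    rw [abs_mul, abs_of_nonneg (show 0 ≤ 1 - ε ^ 2 by nlinarith)]
    nlinarith [abs_nonneg T, sq_nonneg ε]
  have f5 : sin (arcsin (T * (1 - ε ^ 2))) = T * (1 - ε ^ 2) :=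
    sin_arcsin (by linarith [abs_le.1 f4]) (by linarith [abs_le.1 f4])
  refine ⟨(T * (1 + ε ^ 2) / 2, arcsin (T * (1 - ε ^ 2))), max_le ?_ ?_, fun x => ?_⟩
  · rw [Real.norm_eq_abs, abs_div, abs_mul, abs_of_nonneg (show 0 ≤ 1 + ε ^ 2 by positivity),
      abs_two]
    nlinarith [abs_nonneg T, mul_le_mul h1 h1 h0.le zero_le_one]
  · have := mul_abs_le_abs_sin (x := arcsin (T * (1 - ε ^ 2)))
      (abs_le.2 ⟨neg_pi_div_two_le_arcsin _, arcsin_le_pi_div_two _⟩)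
    rw [f5, div_mul_eq_mul_div, div_le_iff₀ pi_pos] at this
    rw [Real.norm_eq_abs]
    nlinarith [pi_le_four, abs_nonneg (T * (1 - ε ^ 2)), pi_pos]
  · obtain ⟨e1, l, hl, e2⟩ := K1 hϖ (hb h0 h1) x
    obtain ⟨e3, l', hl', e4⟩ := K1 hϖ (ha h0 h1) (Lb ϖ ε x + s)
    obtain ⟨e5, l'', hl'', e6⟩ := K1 hϖ (Lp_h (T * (1 + ε ^ 2) / 2, arcsin (T * (1 - ε ^ 2)))) x
    have hc : 0 < cos φ := by linarith
    refine mul_left_cancel₀ hϖ.ne' (K2 (l := l' * l * ε * cos φ / l'') (by positivity) ?_ ?_)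
    · rw [La, e4, mul_add ϖ, ez_add, Lb, e2, na, nb, Lp, e6, f5, ← hφ, ez_eq φ, hT]
      generalize ez (ϖ * x) = z
      simp only [Complex.ext_iff, Complex.add_re, Complex.mul_re, Complex.add_im, Complex.mul_im,
        Complex.ofReal_re, Complex.ofReal_im, Complex.I_re, Complex.I_im, Complex.one_re,
        Complex.one_im, Complex.conj_re, Complex.conj_im]
      constructor <;> field_simp <;> ring
    · rw [abs_lt] at *
      rw [La, Lp]; rw [← Lb] at e1; rw [mul_add ϖ] at e3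
      constructor <;> linarith [pi_gt_three, abs_le.1 f1]

include hϖ h0 h1 in
lemma Lb_deriv (x : ℝ) :
    HasDerivAt (Lb ϖ ε) (ε / (cos (ϖ * x) ^ 2 + ε ^ 2 * sin (ϖ * x) ^ 2)) x := by
  refine (K4 hϖ (hb h0 h1) x).congr_deriv (congrArg₂ _ ?_ ?_)
  · simp only [Complex.normSq_ofReal]; ring
  · rw [nb, ez_eq, Complex.normSq_mk]; ring

include hϖ h0 h1 in
lemma La_deriv (x : ℝ) :
    HasDerivAt (La ϖ ε) (ε / (sin (ϖ * x) ^ 2 + ε ^ 2 * cos (ϖ * x) ^ 2)) x := by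
  refine (K4 hϖ (ha h0 h1) x).congr_deriv (congrArg₂ _ ?_ ?_)
  · simp only [Complex.normSq_ofReal]; ring
  · rw [na, ez_eq, Complex.normSq_mk]; ring

include h0 h1 in
lemma mv {f c s : ℝ → ℝ} (hf : ∀ x, HasDerivAt f (ε / (c x ^ 2 + ε ^ 2 * s x ^ 2)) x)
    (hcs : ∀ x, c x ^ 2 + s x ^ 2 = 1) {x y : ℝ} (hxy : x ≤ y) :
    ε * (y - x) ≤ f y - f x ∧ ((∀ t ∈ Set.Icc x y, 1 / 2 ≤ c t ^ 2) → f y - f x ≤ 2 * ε * (y - x)) := by
  have hd : Differentiable ℝ f := fun x => (hf x).differentiableAt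
  have e2 : ε ^ 2 ≤ 1 := by nlinarith
  refine ⟨mul_sub_le_image_sub_of_le_deriv hd (fun t => ?_) hxy, fun h =>
    (convex_Icc x y).image_sub_le_mul_sub_of_deriv_le hd.continuous.continuousOn
      hd.differentiableOn (fun t ht => ?_) x ⟨le_rfl, hxy⟩ y ⟨hxy, le_rfl⟩ hxy⟩
  · have := hcs t
    rw [(hf t).deriv, le_div_iff₀ (by nlinarith [sq_nonneg (c t), sq_nonneg (s t), pow_pos h0 2])]
    exact mul_le_of_le_one_right h0.le (by nlinarith [sq_nonneg (s t)])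
  · have := h t (interior_subset ht)
    rw [(hf t).deriv, div_le_iff₀ (by positivity)]
    nlinarith [mul_nonneg (sq_nonneg ε) (sq_nonneg (s t))]

end

end Pool.Agent.H.MP_fb0356_an
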