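import Pool.Agent.H.MP_fb0356_an.A

set_option autoImplicit false

namespace Pool.Agent.H.MP_fb0356_an

open scoped ContDiff Topology
open Filter Real

def Dg : Subgroup (Equiv.Perm ℝ) where
  carrier := {F | ContDiff ℝ ∞ F ∧ ContDiff ℝ ∞ ⇑F⁻¹ ∧ StrictMono F ∧ ∀ x, F (x + 1) = F x + 1}
  one_mem' := ⟨contDiff_id, contDiff_id, strictMono_id, fun _ => rfl⟩
  mul_mem' := fun ha hb => ⟨ha.1.comp hb.1, hb.2.1.comp ha.2.1, ha.2.2.1.comp hb.2.2.1,
    fun x => by simp [ha.2.2.2, hb.2.2.2]⟩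
  inv_mem' := fun {F} ha => ⟨ha.2.1, ha.1, fun x y h => ha.2.2.1.lt_iff_lt.1 (by simpa using h),
    fun x => F.injective (by simp [ha.2.2.2])⟩

def tr (s : ℝ) : Equiv.Perm ℝ := Equiv.addRight s

@[simp] lemma tr_apply (s x : ℝ) : tr s x = x + s := rfl
@[simp] lemma tr_inv (s : ℝ) : (tr s)⁻¹ = tr (-s) := by
  rw [inv_eq_iff_mul_eq_one]; ext; simp
lemma tr_add (s t : ℝ) : tr (s + t) = tr s * tr t := by ext x; simp; ring
lemma tr_mem (s : ℝ) : tr s ∈ Dg := ⟨contDiff_id.add contDiff_const,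
  by rw [tr_inv]; exact contDiff_id.add contDiff_const,
  fun x y h => by simpa using h, fun x => by simp; ring⟩
lemma tr_pow (s : ℝ) (n : ℕ) : tr s ^ n = tr (n * s) := by
  induction n with
  | zero => ext; simp
  | succ n ih => rw [pow_succ, ih, ← tr_add]; congr 1; push_cast; ring

lemma Dg_deriv {H : Equiv.Perm ℝ} (hH : H ∈ Dg) (x : ℝ) : 0 < deriv H x := by
  refine hH.2.2.1.monotone.deriv_nonneg.lt_of_ne' fun h => ?_
  have := deriv_comp x (hH.2.1.differentiable (by simp) (H x)) (hH.1.differentiable (by simp) x)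
  rw [h, mul_zero, show ⇑H⁻¹ ∘ H = id by ext; simp, deriv_id] at this
  exact one_ne_zero this

lemma Dg_int {H : Equiv.Perm ℝ} (hH : H ∈ Dg) (x : ℝ) (k : ℤ) : H (x + k) = H x + k := by
  have : Function.Periodic (fun x => H x - x) 1 := fun x => by simp [hH.2.2.2]
  have := this.int_mul k x
  simp only [mul_one] at this; linarith

def Cl (e : ℝ) (N : ℕ) (u v : ℝ → ℝ) : Prop := ∀ j ≤ N, ∀ r ≤ N, ∀ x,
  ‖iteratedFDeriv ℝ r u^[j] x - iteratedFDeriv ℝ r v^[j] x‖ < e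

lemma Cl.trans {e e' : ℝ} {N : ℕ} {u v w : ℝ → ℝ} (h : Cl e N u v) (h' : Cl e' N v w) :
    Cl (e + e') N u w := fun j hj r hr x =>
  (norm_sub_le_norm_sub_add_norm_sub _ _ _).trans_lt (add_lt_add (h j hj r hr x) (h' j hj r hr x))

lemma cl_ev {P Q : Type} [NormedAddCommGroup P] [NormedSpace ℝ P] [NormedAddCommGroup Q]
    [NormedSpace ℝ Q] (E : P → Q → ℝ → ℝ)
    (hE : ContDiff ℝ ∞ fun z : (P × Q) × ℝ => E z.1.1 z.1.2 z.2)
    (hp : ∀ p q x, E p q (x + 1) = E p q x + 1) {K : Set Q} (hK : IsCompact K) {e : ℝ}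
    (he : 0 < e) (N : ℕ) (p0 : P) : ∀ᶠ p in 𝓝 p0, ∀ q ∈ K, Cl e N (E p q) (E p0 q) := by
  have h1 : ∀ j, ContDiff ℝ ∞ fun z : (P × Q) × ℝ => (E z.1.1 z.1.2)^[j] z.2 := fun j => by
    induction j with
    | zero => exact contDiff_snd
    | succ j ih =>
      simp only [Function.iterate_succ_apply']; exact hE.comp (contDiff_fst.prodMk ih)
  have h2 : ∀ j p q x, (E p q)^[j] (x + 1) = (E p q)^[j] x + 1 := fun j p q x => by
    induction j with
    | zero => rfl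
    | succ j ih => simp only [Function.iterate_succ_apply', ih, hp]
  have h3 : ∀ j r, ∀ᶠ p in 𝓝 p0, ∀ q ∈ K, ∀ x,
      ‖iteratedFDeriv ℝ r (E p q)^[j] x - iteratedFDeriv ℝ r (E p0 q)^[j] x‖ < e := fun j r => by
    have h4 := (MP_96d1d5_an.param (f := fun z : P × Q => (E z.1 z.2)^[j]) (h1 j) r).continuous
    have h5 := (hK.prod (isCompact_Icc (a := (0 : ℝ)) (b := 1))
      ).eventually_forall_of_forall_eventually (x₀ := p0) (P := fun p y =>
      ‖iteratedFDeriv ℝ r (E p y.1)^[j] y.2 - iteratedFDeriv ℝ r (E p0 y.1)^[j] y.2‖ < e) fun y _ =>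
      (((h4.comp (f := fun z : P × Q × ℝ => ((z.1, z.2.1), z.2.2)) (by fun_prop)).sub
        (h4.comp (f := fun z : P × Q × ℝ => ((p0, z.2.1), z.2.2)) (by fun_prop))).norm.tendsto' _ 0
        (by simp)).eventually (gt_mem_nhds he)
    filter_upwards [h5] with p h6 q hq x
    have h7 : ∀ p x, ContDiffAt ℝ r (E p q)^[j] x := fun p x => (((h1 j).comp
      (f := fun x => ((p, q), x)) (by fun_prop)).of_le (mod_cast le_top)).contDiffAt
    have h8 : Function.Periodic (fun x => (E p q)^[j] x - (E p0 q)^[j] x) 1 := fun x => by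
      simp [h2]
    have h9 := h6 (q, Int.fract x) ⟨hq, Int.fract_nonneg x, (Int.fract_lt_one x).le⟩
    rw [← fun_iteratedFDeriv_sub_apply (h7 _ _) (h7 _ _)] at h9 ⊢
    rw [← Int.fract_add_floor x, ← iteratedFDeriv_comp_add_right]
    have := h8.int_mul ⌊x⌋
    rw [mul_one] at this
    rwa [funext this]
  filter_upwards [(Finset.range (N + 1)).eventually_all.2 fun j _ =>
    (Finset.range (N + 1)).eventually_all.2 fun r _ => h3 j r] with p h q hq j hj r hr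
  exact h j (Finset.mem_range.2 (by omega)) r (Finset.mem_range.2 (by omega)) q hq

lemma pinv (e : ℝ → Equiv.Perm ℝ) (he : ContDiff ℝ ∞ fun p : ℝ × ℝ => e p.1 p.2)
    (hd : ∀ κ x, deriv (e κ) x ≠ 0) : ContDiff ℝ ∞ fun p : ℝ × ℝ => (e p.1)⁻¹ p.2 := by
  let E : ℝ × ℝ ≃ ℝ × ℝ := Equiv.prodCongrRight e
  have h1 : ContDiff ℝ ∞ E := contDiff_fst.prodMk he
  have h2 : ∀ p, HasStrictFDerivAt E (fderiv ℝ E p) p := fun p =>
    h1.contDiffAt.hasStrictFDerivAt (by simp)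
  have h3 : ∀ p, Function.Injective (fderiv ℝ E p).toLinearMap := fun p => by
    rw [injective_iff_map_eq_zero]
    rintro ⟨a, b⟩ h
    have h4 := congrArg (· (a, b)) ((h2 p).hasFDerivAt.fst.unique hasFDerivAt_fst)
    have h5 := ((ContinuousLinearMap.snd ℝ ℝ ℝ).hasFDerivAt.comp_hasDerivAt p.2
      (HasFDerivAt.comp_hasDerivAt (l := E) p.2 (h2 p).hasFDerivAt
      ((hasDerivAt_const p.2 p.1).prodMk (hasDerivAt_id p.2)))).deriv
    change deriv (e p.1) p.2 = (fderiv ℝ E p (0, 1)).2 at h5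
    change fderiv ℝ E p (a, b) = 0 at h
    obtain rfl : a = 0 := by simpa [h] using h4.symm
    rw [show ((0 : ℝ), b) = b • ((0 : ℝ), (1 : ℝ)) by simp, map_smul] at h
    have h6 := congrArg Prod.snd h
    rw [Prod.smul_snd, ← h5] at h6
    simpa using (mul_eq_zero.1 h6).resolve_right (hd p.1 p.2)
  let f' : ℝ × ℝ → (ℝ × ℝ) ≃L[ℝ] (ℝ × ℝ) := fun p =>
    (LinearEquiv.ofInjectiveEndo _ (h3 p)).toContinuousLinearEquiv
  exact ((E.toHomeomorphOfContinuousOpen h1.continuous (isOpenMap_of_hasStrictFDerivAt_equiv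
    (f' := f') h2)).contDiff_symm (f₀' := f') (fun p => (h2 p).hasFDerivAt) h1).snd

lemma bump {ϖ r : ℝ} (hϖ : 0 < ϖ) (hr : 0 < r) (h1 : ϖ * r ≤ 1) : ∃ h : ℝ → Equiv.Perm ℝ,
    (ContDiff ℝ ∞ fun p : ℝ × ℝ => h p.1 p.2) ∧ (ContDiff ℝ ∞ fun p : ℝ × ℝ => (h p.1)⁻¹ p.2) ∧
    h 0 = 1 ∧ (∀ κ, StrictMono (h κ)) ∧
    (∀ κ s (k : ℤ), ϖ * s = k * π → ∀ x, h κ (x + s) = h κ x + s) ∧
    (∀ κ x, h κ x ≠ x → ∃ k : ℤ, |ϖ * x - k * π| < ϖ * r) ∧ ∀ κ, 0 < κ → κ < π → 0 < h κ 0 := by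
  let u : ℝ → ℝ := fun x => expNegInvGlue (cos (2 * (ϖ * x)) - cos (2 * (ϖ * r)))
  have u1 : ContDiff ℝ ∞ u := expNegInvGlue.contDiff.comp (by fun_prop)
  have u2 : ∀ s (k : ℤ), ϖ * s = k * π → Function.Periodic u s := fun s k hs x => by
    simp only [u]
    rw [mul_add, hs, mul_add, show 2 * (k * π) = k * (2 * π) by ring, cos_add_int_mul_two_pi]
  have u3 := u2 (π / ϖ) 1 (by field_simp; simp)
  obtain ⟨B, hB⟩ := (Function.Periodic.isBounded_of_continuous (f := deriv u) (c := π / ϖ)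
    (fun x => by rw [← deriv_comp_add_const, funext u3]) (by positivity)
    (u1.continuous_deriv (by simp))).exists_pos_norm_lt
  obtain ⟨C, hC⟩ := (u3.isBounded_of_continuous (by positivity) u1.continuous).exists_norm_le
  have d1 : ∀ κ x, HasDerivAt (fun x => x + sin κ / B * u x) (1 + sin κ / B * deriv u x) x :=
    fun κ x => (hasDerivAt_id x).add ((u1.differentiable (by simp) x).hasDerivAt.const_mul _)
  have d2 : ∀ κ x, 0 < deriv (fun x => x + sin κ / B * u x) x := fun κ x => by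
    have h2 : |sin κ / B * deriv u x| < 1 := by
      rw [abs_mul, abs_div, abs_of_pos hB.1, div_mul_eq_mul_div, div_lt_one hB.1]
      exact (mul_le_of_le_one_left (abs_nonneg _) (abs_sin_le_one κ)).trans_lt (hB.2 _ ⟨x, rfl⟩)
    rw [(d1 κ x).deriv]; linarith [abs_lt.1 h2]
  have d3 := fun κ => strictMono_of_deriv_pos (d2 κ)
  have d4 : ∀ κ, Function.Surjective fun x => x + sin κ / B * u x := fun κ => by
    have h2 : ∀ x, |sin κ / B * u x| ≤ |sin κ / B| * C := fun x => by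
      rw [abs_mul]; exact mul_le_mul_of_nonneg_left (hC _ ⟨x, rfl⟩) (abs_nonneg _)
    exact Continuous.surjective (by have := u1.continuous; fun_prop)
      (tendsto_atTop_add_right_of_le _ _ tendsto_id fun x => (abs_le.1 (h2 x)).1)
      (tendsto_atBot_add_right_of_ge _ _ tendsto_id fun x => (abs_le.1 (h2 x)).2)
  have d5 : ContDiff ℝ ∞ fun p : ℝ × ℝ => p.2 + sin p.1 / B * u p.2 :=
    contDiff_snd.add ((contDiff_fst.sin.div_const B).mul (u1.comp contDiff_snd))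
  refine ⟨fun κ => Equiv.ofBijective _ ⟨(d3 κ).injective, d4 κ⟩, d5,
    pinv (fun κ => Equiv.ofBijective _ ⟨(d3 κ).injective, d4 κ⟩) d5 fun κ x => (d2 κ x).ne', by ext; simp, d3, fun κ s k hs x => ?_, fun κ x hx => ?_,
    fun κ h2 h3 => ?_⟩
  · simp only [Equiv.ofBijective_apply, u2 s k hs x]; ring
  · obtain ⟨k, hk⟩ := MP_96d1d5_an.near (2 * (ϖ * x))
    refine ⟨-k, lt_of_not_ge fun h => hx ?_⟩
    have h2 : 2 * (ϖ * r) ≤ |2 * (ϖ * x) + k * (2 * π)| := by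
      rw [show 2 * (ϖ * x) + k * (2 * π) = 2 * (ϖ * x - (-k : ℤ) * π) by push_cast; ring, abs_mul,
        abs_two]; linarith
    have h3 := cos_le_cos_of_nonneg_of_le_pi (by positivity) hk h2
    rw [cos_abs, cos_add_int_mul_two_pi] at h3
    simp [u, expNegInvGlue.zero_of_nonpos (sub_nonpos.2 h3)]
  · have h4 := cos_lt_cos_of_nonneg_of_le_pi le_rfl (show 2 * (ϖ * r) ≤ π by linarith [two_le_pi])
      (by positivity)
    simpa [u] using mul_pos (div_pos (sin_pos_of_pos_of_lt_pi h2 h3) hB.1)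
      (expNegInvGlue.pos_of_pos (sub_pos.2 h4))

def GG (k : Equiv.Perm ℝ) (σ : ℝ) : ℕ → Equiv.Perm ℝ
  | 0 => 1
  | n + 1 => GG k σ n * (tr σ ^ n * k * (tr σ ^ n)⁻¹)

lemma comb {k : Equiv.Perm ℝ} {σ : ℝ} (hσ : 0 < σ) {a : ℕ}
    (hs : ∀ x, k x ≠ x → ∃ m : ℤ, |x - m * ((4 * a + 1) * σ / 4)| < σ / 8)
    (hc : Commute k (tr ((4 * a + 1) * σ / 4))) : ∃ G : Equiv.Perm ℝ,
    (∀ S : Subgroup (Equiv.Perm ℝ), k ∈ S → tr σ ∈ S → G ∈ S) ∧
    G⁻¹ * tr σ * G = k⁻¹ * tr (-(σ / 4)) * k * tr (5 * σ / 4) ∧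
    ∀ j < a, ∀ t, |t| ≤ σ / 8 → |k t| ≤ σ / 8 →
      (G⁻¹ * tr (-(σ / 4)) * G) (t + j * σ) = k t + j * σ - σ / 4 := by
  have hk : ∀ (N : ℤ) t x, ¬ (4 * a + 1 : ℤ) ∣ N → |t| ≤ σ / 8 → x = t + N * σ / 4 → k x = x := by
    rintro N t _ hN ht rfl
    by_contra h
    obtain ⟨m, hm⟩ := hs _ h
    refine hN ⟨m, sub_eq_zero.1 (Int.abs_lt_one_iff.1 ?_)⟩
    have : |((N - (4 * a + 1) * m : ℤ) : ℝ)| < 1 := by
      rw [abs_lt] at hm ⊢; rw [abs_le] at ht
      push_cast; constructor <;> nlinarith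
    exact_mod_cast this
  have hn : ∀ N : ℤ, N ≠ 0 → |N| < 4 * a + 1 → ¬ (4 * a + 1 : ℤ) ∣ N := fun N h1 h2 h3 =>
    h1 (Int.eq_zero_of_abs_lt_dvd h3 h2)
  have kk : ∀ (n : ℕ) x, (tr σ ^ n * k * (tr σ ^ n)⁻¹) x = k (x - n * σ) + n * σ := fun n x => by
    simp [tr_pow, sub_eq_add_neg]
  have h1 : ∀ n, GG k σ (n + 1) = k * tr σ * GG k σ n * (tr σ)⁻¹ := fun n => by
    induction n with
    | zero => simp only [GG]; group
    | succ n ih =>
      calc _ = k * tr σ * (GG k σ n * (tr σ ^ n * k * (tr σ ^ n)⁻¹)) * (tr σ)⁻¹ := by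
            rw [GG, ih]; group
        _ = _ := rfl
  have h2 : ∀ n ≤ a, Commute k (GG k σ n) := fun n hn' => by
    induction n with
    | zero => exact Commute.one_right _
    | succ n ih =>
      refine (ih (by omega)).mul_right ?_
      rcases n.eq_zero_or_pos with rfl | h0
      · simp
      refine Equiv.Perm.Disjoint.commute fun x => or_iff_not_imp_left.2 fun h => ?_
      obtain ⟨m, hm⟩ := hs x h
      rw [kk, hk ((4 * a + 1) * m - 4 * n) _ _ (fun h => hn (4 * n) (by omega) (by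
        rw [abs_lt]; omega) ((Int.dvd_iff_dvd_of_dvd_sub h).1 (dvd_mul_right _ _))) hm.le
        (by push_cast; ring), sub_add_cancel]
  have h3 : ∀ (N : ℤ) t, |t| ≤ σ / 8 → ∀ n : ℕ, (∀ i < n, ¬ (4 * a + 1 : ℤ) ∣ N - 4 * (i : ℕ)) →
      GG k σ n (t + N * σ / 4) = t + N * σ / 4 := fun N t ht n h => by
    induction n with
    | zero => rfl
    | succ n ih =>
      rw [GG, Equiv.Perm.mul_apply, kk, hk _ t _ (h n (by omega)) ht (by push_cast; ring),
        sub_add_cancel, ih fun i hi => h i (by omega)]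
  refine ⟨GG k σ a, fun S h4 h5 => ?_, ?_, fun j hj t ht ht' => ?_⟩
  · clear hs hc hk hn h2 h3
    induction a with
    | zero => exact one_mem _
    | succ n ih => exact mul_mem ih (mul_mem (mul_mem (pow_mem h5 _) h4) (inv_mem (pow_mem h5 _)))
  · have e1 : tr σ ^ a = tr (-(σ / 4)) * tr ((4 * a + 1) * σ / 4) := by
      rw [tr_pow, ← tr_add]; congr 1; ring
    have e2 : tr (5 * σ / 4) = (tr (-(σ / 4)))⁻¹ * tr σ := by
      rw [tr_inv, ← tr_add]; congr 1; ring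
    have e3 := h1 a
    rw [GG, e1, mul_assoc (tr _), ← hc.eq] at e3
    calc _ = (GG k σ a)⁻¹ * k⁻¹ * (k * tr σ * GG k σ a * (tr σ)⁻¹) * tr σ := by group
      _ = _ := by rw [← e3, e2, (h2 a le_rfl).inv_inv.symm.eq]; group
  · have e1 : ∀ n, j < n → n ≤ a → GG k σ n (t + j * σ) = k t + j * σ := fun n h4 h5 => by
      induction n with
      | zero => omega
      | succ n ih =>
        rw [GG, Equiv.Perm.mul_apply, kk]
        rcases (Nat.le_of_lt_succ h4).eq_or_lt with rfl | h6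
        · have := h3 (4 * j) _ ht' j fun i hi => hn _ (by omega) (by rw [abs_lt]; omega)
          rw [add_sub_cancel_right]
          rwa [show ((4 * j : ℤ) : ℝ) * σ / 4 = j * σ by push_cast; ring] at this
        · rw [hk (4 * j - 4 * n) t _ (hn _ (by omega) (by rw [abs_lt]; omega)) ht
            (by push_cast; ring), sub_add_cancel, ih h6 (by omega)]
    have e2 := h3 (4 * j - 1) _ ht' a fun i hi => hn _ (by omega) (by rw [abs_lt]; omega)
    rw [Equiv.Perm.mul_apply, Equiv.Perm.mul_apply, e1 a hj le_rfl, Equiv.Perm.inv_eq_iff_eq]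
    rw [show k t + ((4 * j - 1 : ℤ) : ℝ) * σ / 4 = k t + j * σ - σ / 4 by push_cast; ring] at e2
    rw [e2, tr_apply, sub_eq_add_neg]

end Pool.Agent.H.MP_fb0356_an
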