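import Pool.Agent.H.MP_fb0356_an.B

set_option autoImplicit false

namespace Pool.Agent.H.MP_fb0356_an

open scoped ContDiff Topology
open Filter Real

lemma slope {V W : ℝ → ℝ} (hV : Differentiable ℝ V) (hW : Differentiable ℝ W)
    (h1 : ∀ x, 0 < deriv V x) (h2 : ∀ x, 0 < deriv W x) {x y y' z κ m : ℝ} (h3 : x < y)
    (h4 : y < y') (h5 : y' < z) (hκ : 0 < κ) (h6 : κ * (z - x) ≤ y' - y)
    (h : ∀ a ∈ Set.Icc x z, ∀ b ∈ Set.Icc x z, ∀ c ∈ Set.Icc x z, ∀ d ∈ Set.Icc x z,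
      m < (1 + κ) * (deriv V a / deriv W b) - deriv V c / deriv W d) :
    m < (V y' - V x) / (W y - W x) - (V z - V y') / (W z - W y) := by
  obtain ⟨a, ha, e1⟩ := exists_deriv_eq_slope V (h3.trans h4) hV.continuous.continuousOn
    hV.differentiableOn
  obtain ⟨b, hb, e2⟩ := exists_deriv_eq_slope W h3 hW.continuous.continuousOn hW.differentiableOn
  obtain ⟨c, hc, e3⟩ := exists_deriv_eq_slope V h5 hV.continuous.continuousOn hV.differentiableOn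
  obtain ⟨d, hd, e4⟩ := exists_deriv_eq_slope W (h4.trans h5) hW.continuous.continuousOn
    hW.differentiableOn
  rw [eq_div_iff (by linarith)] at e1 e2 e3 e4
  refine (h a ⟨ha.1.le, by linarith [ha.2]⟩ b ⟨hb.1.le, by linarith [hb.2]⟩ c
    ⟨by linarith [hc.1], hc.2.le⟩ d ⟨by linarith [hd.1], hd.2.le⟩).trans_le (sub_le_sub ?_ ?_)
  · rw [← e1, ← e2, mul_div_mul_comm, mul_comm]
    refine mul_le_mul_of_nonneg_left ?_ (div_pos (h1 a) (h2 b)).le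
    rw [le_div_iff₀ (by linarith)]; nlinarith
  · rw [← e3, ← e4, mul_div_mul_comm]
    exact mul_le_of_le_one_right (div_pos (h1 c) (h2 d)).le
      ((div_le_one (by linarith)).2 (by linarith))

lemma tube0 {D : (ℝ × ℝ) × ℝ → ℝ} {E H : ℝ → ℝ} (D1 : Continuous D) (D2 : Continuous E)
    (D3 : Continuous H) (D0 : ∀ z, 0 < D z) (E0 : ∀ z, 0 < E z) {κ : ℝ} (hκ : 0 < κ) (n : ℕ) :
    ∃ μ L : ℝ, 0 < μ ∧ μ ≤ 1 ∧ 0 < L ∧ ∀ p : ℝ × ℝ, ‖p‖ ≤ 1 → ∀ a b c d : ℝ, |a| ≤ 3 →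
      |b - a| < L → |c - a| < L → |d - a| < L →
      2 * μ < (1 + κ) * (D (p, a) / E b) - D (p, c) / E d ∧ H b - H a < μ ^ n := by
  have hK := (isCompact_closedBall (0 : ℝ × ℝ) 1).prod (isCompact_Icc (a := (-3 : ℝ)) (b := 3))
  obtain ⟨m, hm, h1⟩ := hK.exists_forall_le' (f := fun z => κ * (D z / E z.2)) (a := 0)
    (continuous_const.mul (D1.div (D2.comp continuous_snd) fun z =>
      (E0 _).ne')).continuousOn fun z _ => mul_pos hκ (div_pos (D0 _) (E0 _))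
  have hμ : 0 < min (m / 3) 1 := by positivity
  have c1 : Continuous fun w : (ℝ × ℝ × ℝ) × (ℝ × ℝ) × ℝ => (1 + κ) * (D (w.2.1, w.2.2) /
      E (w.2.2 + w.1.1)) - D (w.2.1, w.2.2 + w.1.2.1) / E (w.2.2 + w.1.2.2) :=
    (continuous_const.mul (Continuous.div (by fun_prop) (by fun_prop) fun z => (E0 _).ne')).sub
      (Continuous.div (by fun_prop) (by fun_prop) fun z => (E0 _).ne')
  have c2 : Continuous fun w : (ℝ × ℝ × ℝ) × (ℝ × ℝ) × ℝ => H (w.2.2 + w.1.1) - H w.2.2 := by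
    fun_prop
  obtain ⟨L, hL, h2⟩ := Metric.eventually_nhds_iff.1 (hK.eventually_forall_of_forall_eventually
    (x₀ := (0 : ℝ × ℝ × ℝ)) (P := fun δ z => 2 * min (m / 3) 1 < (1 + κ) * (D (z.1, z.2) /
      E (z.2 + δ.1)) - D (z.1, z.2 + δ.2.1) / E (z.2 + δ.2.2) ∧
      H (z.2 + δ.1) - H z.2 < min (m / 3) 1 ^ n) fun z hz =>
    ((c1.tendsto _).eventually (lt_mem_nhds (by
      have := h1 z hz
      simp only [Prod.fst_zero, Prod.snd_zero, add_zero]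
      linarith [min_le_left (m / 3) 1]))).and ((c2.tendsto _).eventually (gt_mem_nhds (by
      simpa using pow_pos hμ n))))
  refine ⟨_, L, hμ, min_le_right _ _, hL, fun p hp a b c d ha hb hc hd => ?_⟩
  simpa only [add_sub_cancel] using h2 (y := (b - a, c - a, d - a))
    (by rw [dist_zero_right]; exact max_lt hb (max_lt hc hd)) (p, a)
    ⟨mem_closedBall_zero_iff.2 hp, abs_le.1 ha⟩

lemma tube {H : Equiv.Perm ℝ} (hH : H ∈ Dg) {ϖ κ : ℝ} (hϖ : 0 < ϖ) (hκ : 0 < κ) (n : ℕ) :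
    ∃ μ L : ℝ, 0 < μ ∧ μ ≤ 1 ∧ 0 < L ∧ ∀ p : ℝ × ℝ, ‖p‖ ≤ 1 → ∀ x y y' z : ℝ, |x| ≤ 2 → z - x < L →
      z - x ≤ 1 → x < y → y < y' → y' < z → κ * (z - x) ≤ y' - y → H z - H x ≤ μ ^ n ∧
      2 * μ < (H (Lp ϖ p y') - H (Lp ϖ p x)) / (H y - H x) -
        (H (Lp ϖ p z) - H (Lp ϖ p y')) / (H z - H y) := by
  have d1 : ∀ p, Differentiable ℝ (Lp ϖ p) := fun p =>
    (Lp_smooth ϖ contDiff_const contDiff_id).differentiable (by simp)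
  have d2 : Differentiable ℝ H := hH.1.differentiable (by simp)
  have D0 : ∀ p x, 0 < deriv (H ∘ Lp ϖ p) x := fun p x => by
    rw [deriv_comp x (d2 _) (d1 p x)]
    exact mul_pos (Dg_deriv hH _) (Lp_deriv hϖ p x)
  have D1 : Continuous fun z : (ℝ × ℝ) × ℝ => fderiv ℝ (H ∘ Lp ϖ z.1) z.2 1 :=
    (ContDiff.fderiv (n := 0) (m := ∞) (f := fun z : (ℝ × ℝ) × ℝ => H ∘ Lp ϖ z.1)
      (hH.1.comp (Lp_smooth ϖ contDiff_fst.fst contDiff_snd)) contDiff_snd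
      (by simp)).continuous.clm_apply continuous_const
  obtain ⟨μ, L, h1, h2, h3, h4⟩ := tube0 (D := fun z => deriv (H ∘ Lp ϖ z.1) z.2) D1
    (hH.1.continuous_deriv (by simp)) d2.continuous (fun z => D0 _ _) (Dg_deriv hH) hκ n
  refine ⟨μ, L, h1, h2, h3, fun p hp x y y' z hx h3 h4' h5 h6 h7 h8 => ?_⟩
  have h9 : ∀ a ∈ Set.Icc x z, ∀ b ∈ Set.Icc x z, |a| ≤ 3 ∧ |b - a| < L := fun a ha b hb => by
    rw [abs_le] at hx ⊢; rw [abs_lt]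
    refine ⟨⟨?_, ?_⟩, ?_, ?_⟩ <;> linarith [ha.1, ha.2, hb.1, hb.2]
  have h10 : x ≤ z := by linarith
  have h11 := h9 x ⟨le_rfl, h10⟩ z ⟨h10, le_rfl⟩
  exact ⟨(h4 p hp x z z z h11.1 h11.2 h11.2 h11.2).2.le, slope (V := H ∘ Lp ϖ p)
    (d2.comp (d1 p)) d2 (D0 p) (Dg_deriv hH) h5 h6 h7 hκ h8 fun a ha b hb c hc d hd =>
    (h4 p hp a b c d (h9 a ha b hb).1 (h9 a ha b hb).2 (h9 a ha c hc).2 (h9 a ha d hd).2).1⟩

def comm (s : ℝ) : Subgroup (Equiv.Perm ℝ) := Subgroup.centralizer {tr s}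

lemma mem_comm {s : ℝ} {g : Equiv.Perm ℝ} : g ∈ comm s ↔ ∀ x, g (x + s) = g x + s := by
  simp [comm, Subgroup.mem_centralizer_singleton_iff, Equiv.ext_iff]

lemma exA {ϖ ε : ℝ} (w0 : 0 < ϖ) (e0 : 0 < ε) (h1 : ε ≤ 1) {q : ℤ} (hq : ϖ * 1 = q * π) :
    ∃ A : Equiv.Perm ℝ, (∀ x y, x ≤ y → ε * (y - x) ≤ A y - A x ∧
      ((∀ t ∈ Set.Icc x y, 1 / 2 ≤ sin (ϖ * t) ^ 2) → A y - A x ≤ 2 * ε * (y - x))) ∧
    (∀ x y, x ≤ y → ε * (y - x) ≤ A⁻¹ y - A⁻¹ x ∧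
      ((∀ t ∈ Set.Icc x y, 1 / 2 ≤ cos (ϖ * t) ^ 2) → A⁻¹ y - A⁻¹ x ≤ 2 * ε * (y - x))) ∧
    (∀ s (k : ℤ), ϖ * s = k * π → A ∈ comm s) ∧ A ∈ Dg ∧ A⁻¹ 0 = 0 ∧
    (∀ x, |ϖ * A x - ϖ * x| < π / 2) ∧ ∀ s d, |ϖ * s| ≤ ε * d → d ≤ 1 / 4 →
      ∃ p : ℝ × ℝ, ‖p‖ ≤ 8 * d ∧ ∀ x, (A * tr s * A⁻¹) x = Lp ϖ p x := by
  have mA := fun x y => mv e0 h1 (La_deriv w0 e0 h1) (fun x => sin_sq_add_cos_sq _) (x := x) (y := y)
  refine ⟨Am w0 e0 h1, mA, fun x y => mv e0 h1 (Lb_deriv w0 e0 h1) (fun x => cos_sq_add_sin_sq _),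
    fun s k hs => mem_comm.2 (Lf_per _ _ hs),
    ⟨Lf_smooth ϖ contDiff_const contDiff_const contDiff_id fun _ => ha e0 h1,
    Lf_smooth ϖ contDiff_const contDiff_const contDiff_id fun _ => hb e0 h1,
    fun x y hxy => sub_pos.1 ((mul_pos e0 (sub_pos.2 hxy)).trans_le (mA x y hxy.le).1),
    Lf_per _ _ hq⟩, ?_, fun x => (K1 w0 (ha e0 h1) x).1, fun s d h2 h3 => K3 w0 e0 h1 h2 h3⟩
  change Lb ϖ ε 0 = 0
  rw [Lb, Lf, mul_zero, mul_zero, neg_zero, ez_eq, cos_zero, sin_zero, Complex.log_im]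
  rw [show ((1 + ε) / 2 : ℝ) + ((1 - ε) / 2 : ℝ) * (⟨1, 0⟩ : ℂ) = 1 by
    simp [Complex.ext_iff]; ring]
  simp

lemma inner {q a : ℕ} (hq : 0 < q) (ha3 : 3 ≤ a) {c σ ε r ϖ : ℝ} (hc : 0 < c) (c1 : c ≤ 1 / 5)
    (hϖ : ϖ = π * q) (hσ : σ = 4 / (q * (4 * a + 1))) (hε : ε = ϖ * σ / c) (h1 : ε ≤ 1)
    (hr : r = c / (16 * ϖ)) {h : Equiv.Perm ℝ} (hh : h ∈ Dg)
    (hp : ∀ s (k : ℤ), ϖ * s = k * π → h ∈ comm s)
    (hs : ∀ x, h x ≠ x → ∃ k : ℤ, |ϖ * x - k * π| < ϖ * r) (h0 : 0 < h 0) :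
    ∃ (W : Equiv.Perm ℝ) (p1 p2 p3 p4 : ℝ × ℝ), W ∈ Dg ∧
      (∀ s (k : ℤ), ϖ * s = k * π → W ∈ comm s) ∧ ‖(p1, p2)‖ ≤ 10 * c ∧ ‖(p3, p4)‖ ≤ 10 * c ∧
      ‖p1‖ ≤ 1 ∧ (∀ x, (W * tr σ * W⁻¹) x = h⁻¹ (Lp ϖ p1 (h (Lp ϖ p2 x)))) ∧
      (∀ x, (W * tr σ * W⁻¹)⁻¹ x = Lp ϖ p3 (h⁻¹ (Lp ϖ p4 (h x)))) ∧
      ∃ x y y' z : ℝ, |x| ≤ 2 ∧ z - x ≤ 8 * ε * r ∧ x < y ∧ y < y' ∧ y' < z ∧
        h 0 / (8 * r) * (z - x) ≤ y' - y ∧ (W * tr (-(σ / 4)) * W⁻¹) x = Lp ϖ p1 x ∧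
        (W * tr (-(σ / 4)) * W⁻¹) y = Lp ϖ p1 y' ∧ (W * tr (-(σ / 4)) * W⁻¹) z = Lp ϖ p1 z := by
  have q1 : (1 : ℝ) ≤ q := by exact_mod_cast hq
  have a1 : (3 : ℝ) ≤ a := by exact_mod_cast ha3
  have w0 : 0 < ϖ := by rw [hϖ]; positivity
  have s0 : 0 < σ := by rw [hσ]; positivity
  have e0 : 0 < ε := by rw [hε]; positivity
  have r0 : 0 < r := by rw [hr]; positivity
  have f1 : ϖ * r = c / 16 := by rw [hr]; field_simp
  have f2 : ϖ * σ = ε * c := by rw [hε]; field_simp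
  have f3 : 2 * ε * r = σ / 8 := by rw [hε, hr]; field_simp; norm_num
  have f4 : ϖ * ((4 * a + 1) * σ / 4) = π := by rw [hϖ, hσ]; field_simp
  obtain ⟨A, mA, mB, Ap, hA, B0, A1, A3⟩ := exA w0 e0 h1 (q := q) (by rw [hϖ]; push_cast; ring)
  have B1 : ∀ u v, -r ≤ u → u ≤ v → v ≤ r → A⁻¹ v - A⁻¹ u ≤ 2 * ε * (v - u) := fun u v h2 h3 h4 =>
    (mB u v h3).2 fun t ht => by
      have : |ϖ * t| ≤ 1 / 2 := by
        rw [abs_le]; constructor <;> nlinarith [ht.1, ht.2]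
      nlinarith [sin_sq_le_sq (x := ϖ * t), cos_sq_add_sin_sq (ϖ * t), abs_le.1 this]
  have B2 : ∀ u, |u| ≤ r → |A⁻¹ u| ≤ 2 * ε * |u| := fun u hu => by
    rw [abs_le] at hu
    have hm := (inv_mem hA).2.2.1.monotone
    rcases le_total 0 u with h2 | h2
    · have := B1 0 u (by linarith) h2 hu.2
      rw [abs_of_nonneg h2, abs_of_nonneg (B0 ▸ hm h2)]; linarith
    · have := B1 u 0 hu.1 h2 r0.le
      rw [abs_of_nonpos h2, abs_of_nonpos (B0 ▸ hm h2)]; linarith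
  have B3 : ∀ u, |u| ≤ r → |A⁻¹ u| ≤ σ / 8 := fun u hu =>
    (B2 u hu).trans (f3 ▸ mul_le_mul_of_nonneg_left hu (by positivity))
  have hf : ∀ u, |u| = r → h u = u := fun u hu => by
    by_contra h2
    obtain ⟨k, hk⟩ := hs u h2
    have h3 : |ϖ * u| = ϖ * r := by rw [abs_mul, hu, abs_of_pos w0]
    rcases eq_or_ne k 0 with rfl | h4
    · simp [h3] at hk
    · have h5 : (1 : ℝ) ≤ |(k : ℝ)| := by exact_mod_cast Int.one_le_abs h4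
      have h6 := abs_sub_abs_le_abs_sub (k * π) (ϖ * u)
      rw [abs_sub_comm, abs_mul, abs_of_pos pi_pos] at h6
      nlinarith [pi_gt_three]
  obtain ⟨G, g1, g2, g3⟩ := comb (k := A⁻¹ * h * A) s0 (a := a) (fun x hx => by
    obtain ⟨k, hk⟩ := hs (A x) fun h2 => hx (by simp [h2])
    have h2 : ϖ * (k * ((4 * a + 1) * σ / 4)) = k * π := by rw [mul_left_comm, f4]
    rw [← h2, ← mul_sub, abs_mul, abs_of_pos w0, mul_lt_mul_iff_right₀ w0] at hk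
    have h3 := mem_comm.1 (inv_mem (Ap _ k h2)) (A x - k * ((4 * a + 1) * σ / 4))
    rw [sub_add_cancel, Equiv.Perm.coe_inv, Equiv.symm_apply_apply, ← sub_eq_iff_eq_add] at h3
    refine ⟨k, ?_⟩
    rw [h3, ← f3]
    exact (B2 _ hk.le).trans_lt (mul_lt_mul_of_pos_left hk (by positivity)))
    (Subgroup.mem_centralizer_singleton_iff.1 (mul_mem (mul_mem (inv_mem (Ap _ 1 (by simpa using f4)))
      (hp _ 1 (by simpa using f4))) (Ap _ 1 (by simpa using f4))))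
  have K : ∀ t d : ℝ, |t| = d → d ≤ 5 / 4 → ∃ p : ℝ × ℝ, ‖p‖ ≤ 8 * (d * c) ∧
      ∀ x, (A * tr (t * σ) * A⁻¹) x = Lp ϖ p x := fun t d h2 h3 =>
    A3 _ _ (by rw [mul_left_comm, f2, abs_mul, h2, abs_of_pos (by positivity)]; linarith)
      (by nlinarith)
  obtain ⟨p1, n1, k1⟩ := K (-(1 / 4)) (1 / 4) (by norm_num [abs_of_pos]) (by norm_num)
  obtain ⟨p2, n2, k2⟩ := K (5 / 4) (5 / 4) (by norm_num [abs_of_pos]) (by norm_num)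
  obtain ⟨p3, n3, k3⟩ := K (-(5 / 4)) (5 / 4) (by norm_num [abs_of_pos]) (by norm_num)
  obtain ⟨p4, n4, k4⟩ := K (1 / 4) (1 / 4) (by norm_num [abs_of_pos]) (by norm_num)
  rw [show -(1 / 4) * σ = -(σ / 4) by ring] at k1
  rw [show 5 / 4 * σ = 5 * σ / 4 by ring] at k2
  rw [show -(5 / 4) * σ = -(5 * σ / 4) by ring, ← tr_inv] at k3
  rw [show 1 / 4 * σ = -(-(σ / 4)) by ring, ← tr_inv] at k4
  have g4 : A * G⁻¹ * tr σ * (A * G⁻¹)⁻¹ =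
      h⁻¹ * (A * tr (-(σ / 4)) * A⁻¹) * h * (A * tr (5 * σ / 4) * A⁻¹) := by
    calc _ = A * (G⁻¹ * tr σ * G) * A⁻¹ := by group
      _ = _ := by rw [g2]; group
  have g5 : ∀ u, |u| ≤ r → |h u| ≤ r → (A * G⁻¹ * tr (-(σ / 4)) * (A * G⁻¹)⁻¹)
      (A (A⁻¹ u + (a / 2 : ℕ) * σ)) = Lp ϖ p1 (A (A⁻¹ (h u) + (a / 2 : ℕ) * σ)) := fun u h2 h3 => by
    have := g3 (a / 2) (by omega) _ (B3 u h2) (by simpa using B3 _ h3)
    rw [← k1]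
    simpa [sub_eq_add_neg] using this
  have h2 : h 0 < r := hf r (abs_of_pos r0) ▸ hh.2.2.1 r0
  have m1 : StrictMono fun u => A (A⁻¹ u + (a / 2 : ℕ) * σ) := fun u v huv =>
    hA.2.2.1 (by simpa using (inv_mem hA).2.2.1 huv)
  have j1 : ((a / 2 : ℕ) : ℝ) * 2 ≤ a := by exact_mod_cast Nat.div_mul_le_self a 2
  have j2 : (a : ℝ) ≤ (a / 2 : ℕ) * 2 + 1 := by exact_mod_cast (by omega : a ≤ a / 2 * 2 + 1)
  have j3 : ∀ t, |t| ≤ σ / 8 → π / 4 ≤ ϖ * (t + (a / 2 : ℕ) * σ) ∧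
      ϖ * (t + (a / 2 : ℕ) * σ) ≤ 3 * π / 4 := fun t ht => by
    rw [abs_le] at ht
    have := mul_pos w0 s0
    constructor <;> nlinarith [mul_le_mul_of_nonneg_left ht.1 w0.le,
      mul_le_mul_of_nonneg_left ht.2 w0.le]
  have z1 : A (A⁻¹ r + (a / 2 : ℕ) * σ) - A (A⁻¹ (-r) + (a / 2 : ℕ) * σ) ≤ 8 * ε * ε * r := by
    have e1 := j3 _ (B3 r (abs_of_pos r0).le)
    have e2 := j3 _ (B3 (-r) (by rw [abs_neg, abs_of_pos r0]))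
    have e3 := (mA (A⁻¹ (-r) + (a / 2 : ℕ) * σ) (A⁻¹ r + (a / 2 : ℕ) * σ) (by
      simpa using (inv_mem hA).2.2.1.monotone (show -r ≤ r by linarith))).2 fun t ht => by
      have := cos_nonpos_of_pi_div_two_le_of_le (x := 2 * (ϖ * t))
        (by nlinarith [ht.1]) (by nlinarith [ht.2])
      rw [sin_sq_eq_half_sub]; linarith
    have e4 := B1 (-r) r le_rfl (by linarith) le_rfl
    nlinarith
  refine ⟨A * G⁻¹, p1, p2, p3, p4, mul_mem hA (inv_mem (g1 _ (mul_mem (mul_mem (inv_mem hA) hh) hA)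
    (tr_mem _))), fun s k hk => mul_mem (Ap s k hk) (inv_mem (g1 _ (mul_mem (mul_mem
    (inv_mem (Ap s k hk)) (hp s k hk)) (Ap s k hk)) (mem_comm.2 fun x => by simp; ring))),
    max_le (by linarith) (by linarith), max_le (by linarith) (by linarith), by linarith,
    fun x => by rw [g4, ← k2, ← k1]; rfl, fun x => by rw [g4, ← k4, ← k3]; rfl,
    _, _, _, _, ?_, z1.trans (by nlinarith [mul_pos e0 r0]), m1 (neg_lt_zero.2 r0), m1 h0, m1 h2,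
    ?_, ?_, g5 0 (by simpa using r0.le) (by rw [abs_of_pos h0]; exact h2.le), ?_⟩
  · have e1 := j3 _ (B3 (-r) (by rw [abs_neg, abs_of_pos r0]))
    have e2 := A1 (A⁻¹ (-r) + (a / 2 : ℕ) * σ)
    have e3 : π ≤ ϖ := by rw [hϖ]; nlinarith [pi_pos]
    rw [abs_lt] at e2
    rw [abs_le]
    constructor <;> nlinarith [pi_pos]
  · have e1 := (mA (A⁻¹ 0 + (a / 2 : ℕ) * σ) (A⁻¹ (h 0) + (a / 2 : ℕ) * σ) (by
      simpa using (inv_mem hA).2.2.1.monotone h0.le)).1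
    have e2 := (mB 0 (h 0) h0.le).1
    refine (mul_le_mul_of_nonneg_left z1 (by positivity)).trans ?_
    rw [show h 0 / (8 * r) * (8 * ε * ε * r) = ε * (ε * h 0) by field_simp]
    nlinarith
  · have e1 := hf (-r) (by rw [abs_neg, abs_of_pos r0])
    simpa only [e1] using g5 (-r) (by rw [abs_neg, abs_of_pos r0]) (by rw [e1, abs_neg, abs_of_pos r0])
  · have e1 := hf r (abs_of_pos r0)
    simpa only [e1] using g5 r (abs_of_pos r0).le (by rw [e1, abs_of_pos r0])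

end Pool.Agent.H.MP_fb0356_an
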