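import Pool.Agent.H.MP_fb0356_an.C

set_option autoImplicit false

namespace Pool.Agent.H.MP_fb0356_an

open scoped ContDiff Topology
open Filter Real

structure St where
  H : Equiv.Perm ℝ
  hH : H ∈ Dg
  α : ℚ
  M : ℕ
  e : ℝ
  e0 : 0 < e
  e1 : e ≤ 1

noncomputable def St.F (s : St) : Equiv.Perm ℝ := s.H * tr s.α * s.H⁻¹

lemma St.mem (s : St) : s.F ∈ Dg := mul_mem (mul_mem s.hH (tr_mem _)) (inv_mem s.hH)

def Good (n : ℕ) (s : St) : Prop := ∃ (a : ℕ) (p : ℤ) (x y z μ : ℝ), n < a ∧ IsCoprime p a ∧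
  |(s.α : ℝ) - p / a| < 1 / (4 * a ^ 2) ∧ 12 * a ^ 2 ≤ s.M ∧ x < y ∧ y < z ∧ 0 < μ ∧ μ ≤ 1 ∧
  z - x ≤ μ ^ (n + 1) ∧ ∀ X Y Z, |(s.F ^ a) x - X| ≤ s.e → |(s.F ^ a) y - Y| ≤ s.e →
    |(s.F ^ a) z - Z| ≤ s.e → μ < (Y - X) / (y - x) - (Z - Y) / (z - y)

lemma fam {H : Equiv.Perm ℝ} (hH : H ∈ Dg) (α : ℝ) {ϖ : ℝ} {q : ℤ} (hq : ϖ * 1 = q * π)
    {P Q : Type} [NormedAddCommGroup P] [NormedSpace ℝ P] [NormedAddCommGroup Q] [NormedSpace ℝ Q]
    {g h : P → ℝ → ℝ} {u v : P → Q → ℝ × ℝ} (hg : ContDiff ℝ ∞ fun z : P × ℝ => g z.1 z.2)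
    (hh : ContDiff ℝ ∞ fun z : P × ℝ => h z.1 z.2) (g1 : ∀ p x, g p (x + 1) = g p x + 1)
    (h1 : ∀ p x, h p (x + 1) = h p x + 1) (hu : ContDiff ℝ ∞ fun z : P × Q => u z.1 z.2)
    (hv : ContDiff ℝ ∞ fun z : P × Q => v z.1 z.2) {K : Set Q} (hK : IsCompact K) {e : ℝ}
    (he : 0 < e) (N : ℕ) (p0 : P) : ∀ᶠ p in 𝓝 p0, ∀ q ∈ K,
      Cl e N (fun x => H (g p (Lp ϖ (u p q) (h p (Lp ϖ (v p q) (H⁻¹ x)))) + α))
        (fun x => H (g p0 (Lp ϖ (u p0 q) (h p0 (Lp ϖ (v p0 q) (H⁻¹ x)))) + α)) ∧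
      Cl e N (fun x => H (Lp ϖ (u p q) (g p (Lp ϖ (v p q) (h p (H⁻¹ x + -α))))))
        (fun x => H (Lp ϖ (u p0 q) (g p0 (Lp ϖ (v p0 q) (h p0 (H⁻¹ x + -α)))))) := by
  have L1 : ∀ p x, Lp ϖ p (x + 1) = Lp ϖ p x + 1 := fun p => Lf_per _ _ hq
  have i1 := (inv_mem hH).2.2.2
  have i2 := hH.2.1.comp (contDiff_snd (E := P × Q))
  filter_upwards [cl_ev (fun p q x => H (g p (Lp ϖ (u p q) (h p (Lp ϖ (v p q) (H⁻¹ x)))) + α))
    (hH.1.comp ((hg.comp (contDiff_fst.fst.prodMk (Lp_smooth ϖ (hu.comp contDiff_fst) (hh.comp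
      (contDiff_fst.fst.prodMk (Lp_smooth ϖ (hv.comp contDiff_fst) i2)))))).add contDiff_const))
    (fun p q x => by rw [i1, L1, h1, L1, g1, add_right_comm, hH.2.2.2]) hK he N p0,
    cl_ev (fun p q x => H (Lp ϖ (u p q) (g p (Lp ϖ (v p q) (h p (H⁻¹ x + -α))))))
    (hH.1.comp (Lp_smooth ϖ (hu.comp contDiff_fst) (hg.comp (contDiff_fst.fst.prodMk (Lp_smooth ϖ
      (hv.comp contDiff_fst) (hh.comp (contDiff_fst.fst.prodMk (i2.add contDiff_const))))))))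
    (fun p q x => by rw [i1, add_right_comm, h1, L1, g1, L1, hH.2.2.2]) hK he N p0] with p h2 h3 q hq
  exact ⟨h2 q hq, h3 q hq⟩

lemma step (n : ℕ) (s : St) : ∃ s' : St, s.M < s'.M ∧ s'.e ≤ s.e ∧
    Cl (s.e / 2 / 2 ^ n) s.M s'.F s.F ∧ Cl (s.e / 2 / 2 ^ n) s.M ⇑s'.F⁻¹ ⇑s.F⁻¹ ∧ Good n s' := by
  obtain ⟨H, hH, α, M, e, e0, e1⟩ := s
  have q0 := α.den_pos
  have q1 : (1 : ℝ) ≤ α.den := by exact_mod_cast q0
  obtain ⟨ϖ, hϖ⟩ : ∃ ϖ, ϖ = π * α.den := ⟨_, rfl⟩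
  have w0 : 0 < ϖ := by rw [hϖ]; positivity
  have w1 : ϖ * 1 = (α.den : ℤ) * π := by rw [hϖ]; push_cast; ring
  have w3 : (α.den : ℝ) * α = α.num := by exact_mod_cast α.den_mul_eq_num
  have w2 : ϖ * α = α.num * π := by rw [hϖ, mul_assoc, w3, mul_comm]
  have he : 0 < e / 2 / 2 ^ n / 2 := by positivity
  obtain ⟨ρ, hρ, h1⟩ := Metric.eventually_nhds_iff.1 (fam hH α w1 (P := (ℝ × ℝ) × ℝ × ℝ) (Q := ℝ)
    (g := fun _ x => x) (h := fun _ x => x) (u := fun p _ => p.1) (v := fun p _ => p.2)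
    contDiff_snd contDiff_snd (fun _ _ => rfl) (fun _ _ => rfl) contDiff_fst.fst contDiff_fst.snd
    (isCompact_singleton (x := 0)) he M 0)
  obtain ⟨c, hc, c1, c2⟩ : ∃ c : ℝ, 0 < c ∧ c ≤ 1 / 5 ∧ 10 * c < ρ :=
    ⟨min (1 / 5) (ρ / 20), by positivity, min_le_left _ _, by linarith [min_le_right (1 / 5) (ρ / 20)]⟩
  obtain ⟨r, hr⟩ : ∃ r, r = c / (16 * ϖ) := ⟨_, rfl⟩
  have r0 : 0 < r := by rw [hr]; positivity
  obtain ⟨h, b1, b2, b3, b4, b5, b6, b7⟩ := bump w0 r0 (by rw [hr]; field_simp; linarith)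
  have b8 : ∀ κ, h κ ∈ Dg := fun κ => ⟨b1.comp (contDiff_const.prodMk contDiff_id),
    b2.comp (contDiff_const.prodMk contDiff_id), b4 κ, b5 κ 1 _ w1⟩
  obtain ⟨κ, h2, κ0⟩ := (((fam hH α w1 (Q := (ℝ × ℝ) × ℝ × ℝ) (u := fun _ p => p.1)
    (v := fun _ p => p.2) b2 b1 (fun κ => (inv_mem (b8 κ)).2.2.2) (fun κ => (b8 κ).2.2.2)
    contDiff_snd.fst contDiff_snd.snd (isCompact_closedBall 0 (10 * c)) he M 0).filter_mono
    nhdsWithin_le_nhds).and (Ioo_mem_nhdsGT pi_pos)).exists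
  have d0 := b7 κ κ0.1 κ0.2
  obtain ⟨μ, L, μ0, μ1, L0, h3⟩ := tube hH w0 (div_pos d0 (show 0 < 8 * r by positivity)) (n + 1)
  obtain ⟨a, p, ha, hp⟩ : ∃ (a : ℕ) (p : ℤ), max (n + 3 : ℝ) (π / c / min 1 (min L 1 / (8 * r))) < a ∧
      a * α.num + 1 = α.den * p := by
    obtain ⟨u, v, huv⟩ := α.isCoprime_num_den
    obtain ⟨N, hN⟩ := exists_nat_gt (max (n + 3 : ℝ) (π / c / min 1 (min L 1 / (8 * r))))
    have h4 : 0 ≤ α.den * ((N : ℤ) + u.natAbs) - u ∧ N ≤ α.den * ((N : ℤ) + u.natAbs) - u := by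
      have := Int.le_natAbs (a := u)
      constructor <;> nlinarith [Int.natCast_nonneg N, Int.natCast_nonneg u.natAbs]
    obtain ⟨a, ha⟩ := Int.eq_ofNat_of_zero_le h4.1
    refine ⟨a, (N + u.natAbs) * α.num + v, hN.trans_le (by exact_mod_cast ha ▸ h4.2), ?_⟩
    rw [← ha]; linear_combination -huv
  rw [max_lt_iff] at ha
  have a3 : n + 3 < a := by exact_mod_cast ha.1
  have a0 : (0 : ℝ) < a := by exact_mod_cast (by omega : 0 < a)
  obtain ⟨σ, hσ⟩ : ∃ σ : ℝ, σ = 4 / (α.den * (4 * a + 1)) := ⟨_, rfl⟩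
  have ε1 : ϖ * σ / c < min 1 (min L 1 / (8 * r)) := by
    have := ha.2
    rw [div_lt_comm₀ (by positivity) a0] at this
    refine lt_of_le_of_lt ?_ this
    rw [hϖ, hσ, div_right_comm]
    refine div_le_div_of_nonneg_right ?_ hc.le
    rw [le_div_iff₀ a0]; field_simp; linarith
  rw [lt_min_iff, lt_div_iff₀ (by positivity), lt_min_iff] at ε1
  obtain ⟨W, p1, p2, p3, p4, W1, W2, n1, n2, n3, W3, W4, x, y, y', z, x1, x2, x3, x4, x5, x6, x7, x8,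
    x9⟩ := inner q0 (by omega) hc c1 hϖ hσ rfl ε1.1.le hr (b8 κ)
    (fun s k hs => mem_comm.2 (b5 κ s k hs)) (b6 κ) d0
  obtain ⟨h4, h5⟩ := h3 p1 n3 x y y' z x1 (by linarith) (by linarith) x3 x4 x5 x6
  have y1 := sub_pos.2 (hH.2.2.1 x3)
  have y2 := sub_pos.2 (hH.2.2.1 (x4.trans x5))
  let s' : St := ⟨H * W, mul_mem hH W1, α + 4 / (α.den * (4 * a + 1)), M + 1 + 12 * a ^ 2,
    min e (min (μ * (H y - H x) / 4) (μ * (H z - H y) / 4)), by positivity,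
    (min_le_left _ _).trans e1⟩
  have α1 : (s'.α : ℝ) = α + σ := by rw [hσ]; simp [s']
  have F1 : s'.F = H * tr α * (W * tr σ * W⁻¹) * H⁻¹ := by
    have := Subgroup.mem_centralizer_singleton_iff.1 (W2 _ _ w2)
    calc _ = H * (W * tr α) * tr σ * W⁻¹ * H⁻¹ := by rw [St.F, α1, tr_add]; simp only [s']; group
      _ = _ := by rw [this]; group
  have α2 : a * (s'.α : ℝ) = -(σ / 4) + p := by
    have : (a : ℝ) * α.num + 1 = α.den * p := by exact_mod_cast hp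
    rw [← w3] at this
    rw [α1, hσ]; field_simp; linear_combination (4 * a + 1) * this
  have F2 : ∀ x, (s'.F ^ a) (H x) = H ((W * tr (-(σ / 4)) * W⁻¹) x) + p := fun x => by
    rw [St.F, conj_pow, tr_pow, α2, ← Dg_int hH]
    simp [s', ← Dg_int W1, add_assoc]
  refine ⟨s', by simp only [s']; omega, min_le_left _ _, ?_, ?_, a, p, H x, H y, H z, μ, by omega,
    ⟨α.den, -α.num, by linear_combination -hp⟩, ?_, by simp only [s']; omega, sub_pos.1 y1,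
    sub_pos.1 y2, μ0, μ1, h4, fun X Y Z hX hY hZ => ?_⟩
  · have := (h2 (p1, p2) (mem_closedBall_zero_iff.2 n1)).1
    simp only [b3, inv_one, Equiv.Perm.coe_one, id] at this
    have := this.trans (h1 (y := (p1, p2)) (by rw [dist_zero_right]; linarith) 0 rfl).1
    simp only [Prod.fst_zero, Prod.snd_zero, Lp_zero, add_halves] at this
    convert this using 1
    · ext x; rw [F1, Equiv.Perm.mul_apply, Equiv.Perm.mul_apply, W3]; rfl
    · rfl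
  · have := (h2 (p3, p4) (mem_closedBall_zero_iff.2 n2)).2
    simp only [b3, inv_one, Equiv.Perm.coe_one, id] at this
    have := this.trans (h1 (y := (p3, p4)) (by rw [dist_zero_right]; linarith) 0 rfl).2
    simp only [Prod.fst_zero, Prod.snd_zero, Lp_zero, add_halves] at this
    convert this using 1
    · ext x
      rw [F1, ← W4, ← tr_apply, ← tr_inv]; rfl
    · ext x; simp [St.F]
  · rw [show (s'.α : ℝ) - p / a = -(σ / 4 / a) by
      rw [sub_eq_iff_eq_add, ← mul_right_inj' a0.ne', α2]; field_simp, abs_neg, hσ,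
      abs_of_pos (by positivity), div_div, div_div, div_lt_div_iff₀ (by positivity) (by positivity)]
    nlinarith [mul_pos a0 a0, mul_le_mul_of_nonneg_right q1 (mul_pos a0 a0).le]
  · rw [F2, abs_le] at hX hY hZ
    rw [x7] at hX; rw [x8] at hY; rw [x9] at hZ
    have e2 : s'.e ≤ μ * (H y - H x) / 4 := (min_le_right _ _).trans (min_le_left _ _)
    have e3 : s'.e ≤ μ * (H z - H y) / 4 := (min_le_right _ _).trans (min_le_right _ _)
    have e4 : (H (Lp ϖ p1 y') - H (Lp ϖ p1 x)) / (H y - H x) - μ / 2 ≤ (Y - X) / (H y - H x) := by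
      rw [sub_le_iff_le_add, div_add' _ _ _ y1.ne']
      exact div_le_div_of_nonneg_right (by linarith) y1.le
    have e5 : (Z - Y) / (H z - H y) ≤ (H (Lp ϖ p1 z) - H (Lp ϖ p1 y')) / (H z - H y) + μ / 2 := by
      rw [div_add' _ _ _ y2.ne']
      exact div_le_div_of_nonneg_right (by linarith) y2.le
    linarith

end Pool.Agent.H.MP_fb0356_an
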