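import Pool.Agent.H.MP_fb0356_an.D

set_option autoImplicit false

namespace Pool.Agent.H.MP_fb0356_an

open scoped ContDiff Topology
open Filter Real

noncomputable def sq : ℕ → St
  | 0 => ⟨1, one_mem _, 0, 1, 1, one_pos, le_rfl⟩
  | n + 1 => (step n (sq n)).choose

lemma sq_M : StrictMono fun n => (sq n).M :=
  strictMono_nat_of_lt_succ fun n => (step n (sq n)).choose_spec.1

lemma sq_e : Antitone fun n => (sq n).e :=
  antitone_nat_of_succ_le fun n => (step n (sq n)).choose_spec.2.1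

noncomputable def c (n : ℕ) (j : ℤ) : ℝ → ℝ := ⇑((sq n).F ^ j)

lemma c_sm (n : ℕ) (j : ℤ) : ContDiff ℝ ∞ (c n j) := (zpow_mem (sq n).mem j).1

lemma c_close {n : ℕ} {j : ℤ} (hj : j.natAbs ≤ (sq n).M) (k : ℕ) {r : ℕ} (hr : r ≤ n + k) (z : ℝ) :
    ‖iteratedFDeriv ℝ r (fun z => c (n + (k + 1)) j z - c (n + k) j z) z‖ ≤
      (sq n).e / 2 ^ n / 2 / 2 ^ k := by
  rw [fun_iteratedFDeriv_sub_apply ((c_sm _ _).of_le (mod_cast le_top)).contDiffAt
    ((c_sm _ _).of_le (mod_cast le_top)).contDiffAt]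
  have h1 := hj.trans (sq_M.monotone (Nat.le_add_right n k))
  have h2 := hr.trans (sq_M.le_apply (x := n + k))
  obtain ⟨-, -, h3, h4, -⟩ := (step (n + k) (sq (n + k))).choose_spec
  refine le_trans (b := (sq (n + k)).e / 2 / 2 ^ (n + k)) ?_ ?_
  · obtain ⟨m, rfl | rfl⟩ := j.eq_nat_or_neg
    · simp only [c, zpow_natCast, Equiv.Perm.coe_pow]
      exact (h3 m (by simpa using h1) r h2 z).le
    · simp only [c, zpow_neg, zpow_natCast, ← inv_pow, Equiv.Perm.coe_pow]
      exact (h4 m (by simpa using h1) r h2 z).le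
  · rw [pow_add, div_div, div_div, div_div, mul_left_comm]
    exact div_le_div_of_nonneg_right (sq_e (Nat.le_add_right n k)) (by positivity)

lemma c_dist {n : ℕ} {j : ℤ} (hj : j.natAbs ≤ (sq n).M) (k : ℕ) (p : ℝ) :
    dist (c (n + k) j p) (c (n + (k + 1)) j p) ≤ (sq n).e / 2 ^ n / 2 / 2 ^ k := by
  have := c_close hj k (Nat.zero_le _) p
  rwa [norm_iteratedFDeriv_zero, ← dist_eq_norm, dist_comm] at this

lemma hM (j : ℤ) {n : ℕ} (h : j.natAbs ≤ n) : j.natAbs ≤ (sq n).M := h.trans sq_M.le_apply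

lemma c_lim (j : ℤ) (p : ℝ) : ∃ y, Tendsto (fun n => c n j p) atTop (𝓝 y) := by
  obtain ⟨y, hy⟩ := cauchySeq_tendsto_of_complete
    (cauchySeq_of_le_geometric_two fun k => c_dist (hM j le_rfl) k p)
  exact ⟨y, (tendsto_add_atTop_iff_nat j.natAbs).1 (by simpa only [add_comm] using hy)⟩

noncomputable def g (j : ℤ) (p : ℝ) : ℝ := (c_lim j p).choose

lemma g_lim (j : ℤ) (p : ℝ) (n : ℕ) : Tendsto (fun k => c (n + k) j p) atTop (𝓝 (g j p)) := by
  simpa only [add_comm, g] using (tendsto_add_atTop_iff_nat n).2 (c_lim j p).choose_spec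

lemma g_dist {n : ℕ} {j : ℤ} (hj : j.natAbs ≤ (sq n).M) (p : ℝ) :
    dist (c n j p) (g j p) ≤ (sq n).e / 2 ^ n :=
  dist_le_of_le_geometric_two_of_tendsto₀ (fun k => c_dist hj k p) (g_lim j p n)

lemma g_sm (j : ℤ) : ContDiff ℝ ∞ (g j) := by
  obtain ⟨n, hj⟩ : ∃ n, j.natAbs ≤ (sq n).M := ⟨_, hM j le_rfl⟩
  have h0 : (fun z => g j z - c n j z) = fun z => ∑' k, (c (n + (k + 1)) j z - c (n + k) j z) := by
    ext1 z
    have h1 : Summable fun k => c (n + (k + 1)) j z - c (n + k) j z :=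
      .of_norm_bounded (summable_geometric_two' _) fun k => by
        simpa only [norm_iteratedFDeriv_zero] using c_close hj k (Nat.zero_le _) z
    refine tendsto_nhds_unique ?_ h1.hasSum.tendsto_sum_nat
    simp only [Finset.sum_range_sub fun k => c (n + k) j z]
    exact (g_lim j _ n).sub_const _
  have h : ContDiff ℝ ∞ fun z => g j z - c n j z := by
    rw [h0]
    exact contDiff_tsum_of_eventually (fun k => (c_sm _ _).sub (c_sm _ _))
      (fun r _ => summable_geometric_two' ((sq n).e / 2 ^ n)) fun r _ => by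
        rw [Nat.cofinite_eq_atTop]
        filter_upwards [eventually_ge_atTop r] with k hk z using c_close hj k (by omega) z
  simpa using h.add (c_sm n j)

lemma g_add (i j : ℤ) (p : ℝ) : g (i + j) p = g i (g j p) := by
  refine tendsto_nhds_unique (g_lim _ p 0) ?_
  have h1 := ((g_sm i).continuous.tendsto _).comp (g_lim j p 0)
  refine h1.congr_dist (squeeze_zero' (Eventually.of_forall fun _ => dist_nonneg) ?_
    (g := fun n => 1 / 2 ^ n) ?_)
  · filter_upwards [eventually_ge_atTop i.natAbs] with n hn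
    rw [dist_comm, zero_add, c, zpow_add]
    simpa [c] using (g_dist (hM i hn) (c n j p)).trans
      (div_le_div_of_nonneg_right (sq n).e1 (by positivity))
  · simpa using tendsto_pow_atTop_nhds_zero_of_lt_one (r := (2⁻¹ : ℝ)) (by norm_num) (by norm_num)

lemma g_zero (p : ℝ) : g 0 p = p := tendsto_nhds_unique (g_lim 0 p 0) (by simp [c])

noncomputable def f : Equiv.Perm ℝ where
  toFun := g 1
  invFun := g (-1)
  left_inv p := by rw [← g_add]; exact g_zero p
  right_inv p := by rw [← g_add]; exact g_zero p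

lemma f_mem : f ∈ Dg := ⟨g_sm 1, g_sm (-1), Monotone.strictMono_of_injective (fun x y h =>
    le_of_tendsto_of_tendsto' (g_lim 1 x 0) (g_lim 1 y 0) fun n =>
      (zpow_mem (sq _).mem 1).2.2.1.monotone h) f.injective,
  fun x => tendsto_nhds_unique (g_lim 1 _ 0) (((g_lim 1 x 0).add_const 1).congr fun n =>
    ((zpow_mem (sq _).mem 1).2.2.2 x).symm)⟩

lemma f_dist {n m : ℕ} (h : m ≤ (sq n).M) (x : ℝ) : |((sq n).F ^ m) x - f^[m] x| ≤ (sq n).e := by
  have : f^[m] x = g m x := by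
    induction m with
    | zero => exact (g_zero x).symm
    | succ m ih =>
      rw [Function.iterate_succ_apply', ih (by omega), Nat.cast_succ, add_comm, g_add]; rfl
  rw [this, ← zpow_natCast]
  exact (g_dist (j := m) h x).trans (div_le_self (sq n).e0.le (one_le_pow₀ one_le_two))

noncomputable def fc : CircleDeg1Lift := ⟨⟨f, f_mem.2.2.1.monotone⟩, f_mem.2.2.2⟩

noncomputable def rho : ℝ := fc.translationNumber

lemma rho_close (n : ℕ) : (sq n).M * |rho - (sq n).α| ≤ 3 := by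
  have h1 := fc.dist_pow_map_zero_mul_translationNumber_le (sq n).M
  have h2 := (f_dist (n := n) le_rfl 0).trans (sq n).e1
  rw [CircleDeg1Lift.coe_pow, Real.dist_eq] at h1
  change |f^[_] 0 - _ * rho| ≤ 1 at h1
  rw [St.F, conj_pow, tr_pow] at h2
  generalize sq n = s at *
  have h3 := s.hH.2.2.1.monotone (add_le_add_right (Int.floor_le (s.M * s.α : ℝ)) (s.H⁻¹ 0))
  have h4 := s.hH.2.2.1.monotone (add_le_add_right (Int.le_ceil (s.M * s.α : ℝ)) (s.H⁻¹ 0))
  rw [Dg_int s.hH] at h3 h4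
  simp only [Equiv.Perm.coe_inv, Equiv.apply_symm_apply, Equiv.Perm.mul_apply, tr_apply] at h2 h3 h4
  rw [← Nat.abs_cast (R := ℝ), ← abs_mul, mul_sub]
  rw [abs_le] at *
  constructor <;> linarith [Int.lt_floor_add_one (s.M * s.α : ℝ), Int.ceil_lt_add_one (s.M * s.α : ℝ)]

lemma good (n : ℕ) : ∃ (q : ℚ) (x y z μ : ℝ), n < q.den ∧ |rho - q| < 1 / (2 * (q.den : ℝ) ^ 2) ∧
    x < y ∧ y < z ∧ 0 < μ ∧ μ ≤ 1 ∧ z - x ≤ μ ^ (n + 1) ∧
    μ < (f^[q.den] y - f^[q.den] x) / (y - x) - (f^[q.den] z - f^[q.den] y) / (z - y) := by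
  obtain ⟨a, p, x, y, z, μ, h1, h2, h3, h4, h5, h6, h7, h8, h9, h⟩ : Good n (sq (n + 1)) :=
    (step n (sq n)).choose_spec.2.2.2.2
  have a0 : 0 < a := by omega
  have e : ((p : ℚ) / (a : ℤ)).den = a := by
    exact_mod_cast Rat.den_div_eq_of_coprime (by exact_mod_cast a0)
      (Int.isCoprime_iff_nat_coprime.1 h2)
  have h10 : a ≤ (sq (n + 1)).M := by nlinarith
  refine ⟨p / (a : ℤ), x, y, z, μ, by rwa [e], ?_, h5, h6, h7, h8, h9,
    by rw [e]; exact h _ _ _ (f_dist h10 x) (f_dist h10 y) (f_dist h10 z)⟩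
  have h11 : |rho - (sq (n + 1)).α| ≤ 1 / (4 * a ^ 2) := by
    have h12 : (12 : ℝ) * a ^ 2 ≤ (sq (n + 1)).M := by exact_mod_cast h4
    rw [le_div_iff₀ (by positivity)]
    nlinarith [rho_close (n + 1), abs_nonneg (rho - (sq (n + 1)).α)]
  rw [e, show (1 : ℝ) / (2 * a ^ 2) = 1 / (4 * a ^ 2) + 1 / (4 * a ^ 2) by field_simp; norm_num]
  push_cast
  exact (abs_sub_le _ _ _).trans_lt (add_lt_add_of_le_of_lt h11 h3)

lemma rho_irr : Irrational rho := by
  rintro ⟨u, hu⟩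
  obtain ⟨q, -, -, -, -, h1, h2, -⟩ := good u.den
  rw [← hu] at h2
  have h3 : u.num * q.den - q.num * u.den ≠ 0 := fun h => by
    rw [sub_eq_zero, ← Rat.eq_iff_mul_eq_mul] at h
    rw [h] at h1; exact lt_irrefl _ h1
  have h4 : (1 : ℝ) ≤ |(u.num : ℝ) * q.den - q.num * u.den| := by exact_mod_cast Int.one_le_abs h3
  have h5 : (0 : ℝ) < u.den := by exact_mod_cast u.den_pos
  have h6 : (u.den : ℝ) < q.den := by exact_mod_cast h1
  rw [Rat.cast_def u, Rat.cast_def q, div_sub_div _ _ h5.ne' (by linarith), abs_div,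
    abs_of_pos (mul_pos h5 (by linarith)), div_lt_div_iff₀ (mul_pos h5 (by linarith))
    (by nlinarith), mul_comm (u.den : ℝ) q.num] at h2
  nlinarith

/-- Regularity of class C^t for real t. -/
def IsC (t : ℝ) (F : ℝ → ℝ) : Prop := ContDiff ℝ ⌊t⌋₊ F ∧ (0 < Int.fract t → ∃ C, ∀ x y,
  |iteratedDeriv ⌊t⌋₊ F x - iteratedDeriv ⌊t⌋₊ F y| ≤ C * |x - y| ^ Int.fract t)

/-- The C^r norms of the functions tend to zero. -/
def ToZero (r : ℝ) (φ : ℕ → ℝ → ℝ) : Prop := ∀ ε > 0, ∀ᶠ n in atTop,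
  (∀ j ≤ ⌊r⌋₊, ∀ x, |iteratedDeriv j (φ n) x| ≤ ε) ∧ (0 < Int.fract r → ∀ x y,
    |iteratedDeriv ⌊r⌋₊ (φ n) x - iteratedDeriv ⌊r⌋₊ (φ n) y| ≤ ε * |x - y| ^ Int.fract r)

lemma lip {u : ℝ → ℝ} (hu : Differentiable ℝ u) {B : ℝ} (h : ∀ x, |deriv u x| ≤ B) (x y : ℝ) :
    |u x - u y| ≤ B * |x - y| :=
  convex_univ.norm_image_sub_le_of_norm_deriv_le (fun x _ => hu x) (fun x _ => h x) trivial trivial

lemma isC {F : Equiv.Perm ℝ} (hF : F ∈ Dg) {s : ℝ} (hs : 1 ≤ s) : IsC s F := by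
  refine ⟨hF.1.of_le (mod_cast le_top), fun h => ?_⟩
  have hb : ∀ k, 0 < k → ∃ B, ∀ x, |iteratedDeriv k F x| ≤ B := fun k hk => by
    obtain ⟨B, hB⟩ := (Function.Periodic.isBounded_of_continuous (f := iteratedDeriv k F) (c := 1)
      (fun x => by
        rw [← congrFun (iteratedDeriv_comp_add_const k F 1) x,
          ← iteratedDeriv_const_add (f := F) hk 1]
        simp only [hF.2.2.2, add_comm]) one_ne_zero
      (hF.1.continuous_iteratedDeriv k (mod_cast le_top))).exists_norm_le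
    exact ⟨B, fun x => hB _ ⟨x, rfl⟩⟩
  obtain ⟨B, hB⟩ := hb _ (Nat.floor_pos.2 hs)
  obtain ⟨B', hB'⟩ := hb (⌊s⌋₊ + 1) (by omega)
  have B0 := (abs_nonneg _).trans (hB 0)
  have B1 := (abs_nonneg _).trans (hB' 0)
  refine ⟨2 * B + B', fun x y => ?_⟩
  have h0 := rpow_nonneg (abs_nonneg (x - y)) (Int.fract s)
  rcases le_total |x - y| 1 with h1 | h1
  · have := lip (hF.1.differentiable_iteratedDeriv ⌊s⌋₊ (mod_cast ENat.natCast_lt_top _))
      (by rwa [← iteratedDeriv_succ]) x y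
    nlinarith [self_le_rpow_of_le_one (abs_nonneg _) h1 (Int.fract_lt_one s).le]
  · nlinarith [one_le_rpow h1 h.le, abs_sub (iteratedDeriv ⌊s⌋₊ F x) (iteratedDeriv ⌊s⌋₊ F y),
      hB x, hB y]

theorem main {r : ℝ} (hr : 1 < r) (p : ℕ → ℤ) :
    ¬ ToZero r fun n x => f^[(rho.convergent n).den] x - p n - x := fun h => by
  have sm : ∀ n, ContDiff ℝ ∞ fun x => f^[(rho.convergent n).den] x - p n - x := fun n => by
    rw [← Equiv.Perm.coe_pow]; exact ((pow_mem f_mem _).1.sub contDiff_const).sub contDiff_id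
  obtain ⟨N, hN⟩ := eventually_atTop.1 (h 1 one_pos)
  obtain ⟨τ, τ0, h1⟩ : ∃ τ : ℝ, 0 < τ ∧ ∀ n ≥ N, ∀ x y,
      |deriv (fun x => f^[(rho.convergent n).den] x - p n - x) x -
        deriv (fun x => f^[(rho.convergent n).den] x - p n - x) y| ≤ |x - y| ^ τ := by
    rcases LE.le.eq_or_lt (show 1 ≤ ⌊r⌋₊ from Nat.floor_pos.2 hr.le) with h1 | h1
    · have h2 : 0 < Int.fract r := by
        rw [Int.fract, ← Int.natCast_floor_eq_floor (by linarith), ← h1]; simpa using hr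
      exact ⟨_, h2, fun n hn x y => by simpa [← h1] using (hN n hn).2 h2 x y⟩
    · refine ⟨1, one_pos, fun n hn x y => ?_⟩
      simpa using lip (B := 1) (((contDiff_infty_iff_deriv.1 (sm n)).2).differentiable (by simp))
        (fun x => by simpa [iteratedDeriv_succ] using (hN n hn).1 2 h1 x) x y
  obtain ⟨n0, h2⟩ := exists_nat_ge (1 / τ)
  obtain ⟨q, x, y, z, μ, g1, g2, g3, g4, g5, g6, g7, g8⟩ :=
    good (n0 + (Finset.range N).sup fun i => (rho.convergent i).den)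
  obtain ⟨k, rfl⟩ := exists_rat_eq_convergent g2
  have hk : N ≤ k := not_lt.1 fun hk => by
    have := Finset.le_sup (f := fun i => (rho.convergent i).den) (Finset.mem_range.2 hk)
    omega
  have d := (sm k).differentiable (by simp)
  obtain ⟨a, ha, e1⟩ := exists_deriv_eq_slope _ g3 d.continuous.continuousOn d.differentiableOn
  obtain ⟨b, hb, e2⟩ := exists_deriv_eq_slope _ g4 d.continuous.continuousOn d.differentiableOn
  have h3 := (le_abs_self _).trans (h1 k hk a b)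
  have h4 : |a - b| ^ τ ≤ μ := by
    refine (rpow_le_rpow (abs_nonneg _) (le_trans (by
      rw [abs_le]; constructor <;> linarith [ha.1, ha.2, hb.1, hb.2]) g7) τ0.le).trans ?_
    rw [← rpow_natCast, ← rpow_mul g5.le]
    refine rpow_le_self_of_le_one g5.le g6 ?_
    rw [div_le_iff₀ τ0] at h2
    push_cast
    nlinarith [Nat.cast_nonneg (α := ℝ) ((Finset.range N).sup fun i => (rho.convergent i).den)]
  rw [e1, e2] at h3
  have e3 : ∀ u v U V c : ℝ, u < v → (V - c - v - (U - c - u)) / (v - u) = (V - U) / (v - u) - 1 :=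
    fun u v U V c h => by have := sub_pos.2 h; field_simp; ring
  rw [e3 _ _ _ _ _ g3, e3 _ _ _ _ _ g4] at h3
  linarith

end Pool.Agent.H.MP_fb0356_an
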